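import Mathlib

set_option autoImplicit false

open Filter Topology Finset

namespace Pool.Agent.MP_a091fe_an

/-! General facts on series of polynomials. -/

lemma poly_iter_lim (P : ℕ → Polynomial ℂ) (f : ℂ → ℂ)
    (hlim : TendstoLocallyUniformlyOn (fun N z => ((∑ j ∈ range N, P j)).eval z) f atTop
      Set.univ) (k : ℕ) :
    TendstoLocallyUniformlyOn
      (fun N z => (Polynomial.derivative^[k] (∑ j ∈ range N, P j)).eval z)
      (iteratedDeriv k f) atTop Set.univ := by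
  induction k with
  | zero => simpa using hlim
  | succ k ih =>
    rw [iteratedDeriv_succ]
    have h1 := ih.deriv (Eventually.of_forall fun N =>
      (Polynomial.differentiable _).differentiableOn) isOpen_univ
    refine h1.congr fun N z _ => ?_
    simp only [Function.comp_apply]
    rw [Function.iterate_succ_apply']
    exact Polynomial.deriv _

lemma eval_zero_iter (p : Polynomial ℂ) (k : ℕ) :
    (Polynomial.derivative^[k] p).eval 0 = (k.factorial : ℂ) * p.coeff k := by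
  rw [← Polynomial.coeff_zero_eq_eval_zero, Polynomial.coeff_iterate_derivative]
  simp [Nat.descFactorial_self]

lemma iteratedDeriv_of_eventually (P : ℕ → Polynomial ℂ) (f : ℂ → ℂ)
    (hlim : TendstoLocallyUniformlyOn (fun N z => ((∑ j ∈ range N, P j)).eval z) f atTop
      Set.univ) (k : ℕ) (c : ℂ) (N₀ : ℕ)
    (hc : ∀ N, N₀ ≤ N → (∑ j ∈ range N, P j).coeff k = c) :
    iteratedDeriv k f 0 = (k.factorial : ℂ) * c := by
  have h1 := (poly_iter_lim P f hlim k).tendsto_at (Set.mem_univ (0 : ℂ))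
  have h2 : Tendsto (fun N => (Polynomial.derivative^[k] (∑ j ∈ range N, P j)).eval (0 : ℂ)) atTop
      (𝓝 ((k.factorial : ℂ) * c)) := by
    refine tendsto_const_nhds.congr' ?_
    filter_upwards [eventually_ge_atTop N₀] with N hN
    rw [eval_zero_iter, hc N hN]
  exact tendsto_nhds_unique h1 h2

/-! The parameters. -/

noncomputable def R (j : ℕ) : ℝ := Real.log ((j : ℝ) + 3)

def K (j : ℕ) : ℕ := Nat.log 2 (j + 3) + 1

def h (j : ℕ) : ℕ := 2 ^ (4 * (j + 3) ^ 2)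

def L (j : ℕ) : ℕ := 2 * (j + 3) * K j ^ 2 * h j

lemma one_le_R (j : ℕ) : 1 ≤ R j := by
  unfold R
  rw [Real.le_log_iff_exp_le (by positivity)]
  have := Real.exp_one_lt_d9
  have : (0 : ℝ) ≤ j := Nat.cast_nonneg j
  linarith

lemma R_pos (j : ℕ) : 0 < R j := lt_of_lt_of_le one_pos (one_le_R j)

lemma R_mono : StrictMono R := by
  intro i j hij
  unfold R
  apply Real.log_lt_log (by positivity)
  have : (i : ℝ) < j := by exact_mod_cast hij
  linarith

lemma R_succ_sub (j : ℕ) : 1 / ((j : ℝ) + 4) ≤ R (j + 1) - R j := by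
  unfold R
  have hj : (0 : ℝ) ≤ j := Nat.cast_nonneg j
  push_cast
  rw [← Real.log_div (by positivity) (by positivity)]
  have := Real.one_sub_inv_le_log_of_pos (x := ((j : ℝ) + 1 + 3) / ((j : ℝ) + 3)) (by positivity)
  refine le_trans (le_of_eq ?_) this
  field_simp
  ring

lemma R_two_sub (j : ℕ) : R (j + 2) - R j ≤ 2 / ((j : ℝ) + 3) := by
  unfold R
  have hj : (0 : ℝ) ≤ j := Nat.cast_nonneg j
  push_cast
  rw [← Real.log_div (by positivity) (by positivity)]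
  have := Real.log_le_sub_one_of_pos (x := ((j : ℝ) + 2 + 3) / ((j : ℝ) + 3)) (by positivity)
  refine le_trans this (le_of_eq ?_)
  field_simp
  ring

lemma R_le (j : ℕ) : R j ≤ (j : ℝ) + 2 := by
  unfold R
  have := Real.log_le_sub_one_of_pos (x := (j : ℝ) + 3) (by positivity)
  linarith

lemma two_le_R {j : ℕ} (hj : 5 ≤ j) : 2 ≤ R j := by
  unfold R
  rw [Real.le_log_iff_exp_le (by positivity)]
  have h1 := Real.exp_one_lt_d9
  have h2 : Real.exp 2 = Real.exp 1 * Real.exp 1 := by rw [← Real.exp_add]; norm_num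
  have h3 : (5 : ℝ) ≤ j := by exact_mod_cast hj
  have h4 : (0 : ℝ) < Real.exp 1 := Real.exp_pos 1
  rw [h2]
  nlinarith

lemma K_le (j : ℕ) : (K j : ℝ) ≤ 3 * R j := by
  unfold K
  have h1 : 2 ^ Nat.log 2 (j + 3) ≤ j + 3 := Nat.pow_log_le_self 2 (by omega)
  have h2 : ((2 : ℝ) ^ Nat.log 2 (j + 3)) ≤ (j : ℝ) + 3 := by exact_mod_cast h1
  have h3 : (Nat.log 2 (j + 3) : ℝ) * Real.log 2 ≤ R j := by
    rw [← Real.log_pow]
    exact Real.log_le_log (by positivity) h2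
  have h4 := Real.log_two_gt_d9
  have h5 := one_le_R j
  have h6 : (0 : ℝ) ≤ (Nat.log 2 (j + 3) : ℝ) := Nat.cast_nonneg _
  push_cast
  nlinarith

lemma K_pos (j : ℕ) : 1 ≤ K j := by unfold K; omega

lemma h_pos (j : ℕ) : 0 < h j := by unfold h; positivity

lemma L_pos (j : ℕ) : 0 < L j := by
  unfold L
  have := h_pos j
  have := K_pos j
  positivity

lemma h_le_L (j : ℕ) : 6 * h j ≤ L j := by
  unfold L
  have h1 : 1 ≤ K j ^ 2 := Nat.one_le_pow _ _ (K_pos j)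
  have h2 : 6 ≤ 2 * (j + 3) * K j ^ 2 := by nlinarith
  exact Nat.mul_le_mul_right _ h2

lemma K_mono (j : ℕ) : K j ≤ K (j + 1) := by
  unfold K
  have := Nat.log_mono_right (b := 2) (show j + 3 ≤ j + 1 + 3 by omega)
  omega

lemma h_succ (j : ℕ) : h (j + 1) = h j * 2 ^ (8 * j + 28) := by
  unfold h
  rw [← pow_add]
  congr 1
  ring

lemma pow_aux (j : ℕ) : 8 * (j + 5) ^ 3 ≤ 2 ^ (8 * j + 28) := by
  have h2 : j + 5 ≤ 2 ^ (j + 5) := Nat.lt_two_pow_self.le
  have h5 : (j + 5) ^ 3 ≤ (2 ^ (j + 5)) ^ 3 := Nat.pow_le_pow_left h2 3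
  have h6 : (2 : ℕ) ^ 3 * (2 ^ (j + 5)) ^ 3 = 2 ^ (3 * j + 18) := by
    rw [← pow_mul, ← pow_add]
    congr 1
    ring
  have h7 : (2 : ℕ) ^ (3 * j + 18) ≤ 2 ^ (8 * j + 28) :=
    Nat.pow_le_pow_right (by norm_num) (by omega)
  calc 8 * (j + 5) ^ 3 ≤ 8 * (2 ^ (j + 5)) ^ 3 := Nat.mul_le_mul_left 8 h5
    _ = 2 ^ 3 * (2 ^ (j + 5)) ^ 3 := by norm_num
    _ = 2 ^ (3 * j + 18) := h6
    _ ≤ 2 ^ (8 * j + 28) := h7

lemma mul_aux (a b x y k k' : ℕ) (hk : k ≤ k') (hab : a ≤ b) (x0 : ℕ) (hx : x0 ≤ y) :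
    x0 * (2 * a * k ^ 2 * x) ≤ 2 * b * k' ^ 2 * (x * y) := by
  have h1 : k ^ 2 ≤ k' ^ 2 := Nat.pow_le_pow_left hk 2
  calc x0 * (2 * a * k ^ 2 * x) = (2 * a * k ^ 2) * (x * x0) := by ring
    _ ≤ (2 * b * k' ^ 2) * (x * y) :=
        Nat.mul_le_mul (Nat.mul_le_mul (Nat.mul_le_mul_left 2 hab) h1) (Nat.mul_le_mul_left x hx)

lemma L_growth (j : ℕ) : 8 * (j + 5) ^ 3 * L j ≤ L (j + 1) := by
  have h1 := h_succ j
  have h3 := pow_aux j
  have h4 := K_mono j
  unfold L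
  rw [h1]
  exact mul_aux (j + 3) (j + 1 + 3) (h j) _ (K j) (K (j + 1)) h4 (by omega) _ h3

lemma L_succ (j : ℕ) : L j + h j < L (j + 1) := by
  have h1 := L_growth j
  have h2 := h_le_L j
  have h3 := L_pos j
  have h4 : 125 ≤ (j + 5) ^ 3 := by
    calc 125 = 5 ^ 3 := by norm_num
      _ ≤ (j + 5) ^ 3 := Nat.pow_le_pow_left (by omega) 3
  nlinarith

lemma L_strictMono : StrictMono L := strictMono_nat_of_lt_succ fun j => by
  have := L_succ j
  omega

lemma L_lt {i j : ℕ} (hij : i < j) : L i + h i < L j :=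
  lt_of_lt_of_le (L_succ i) (L_strictMono.monotone hij)

lemma le_L (j : ℕ) : j ≤ L j := L_strictMono.le_apply

lemma L_even (j : ℕ) : Even (L j) := by
  unfold L
  exact ⟨(j + 3) * K j ^ 2 * h j, by ring⟩

end Pool.Agent.MP_a091fe_an
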