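import Pool.Agent.MP_a091fe_an.Basic

set_option autoImplicit false

open Filter Topology Finset

namespace Pool.Agent.MP_a091fe_an

attribute [local irreducible] h L K

/-! The counterexample function. -/

noncomputable def P (j : ℕ) : Polynomial ℂ :=
  Polynomial.C (((R j : ℂ)⁻¹) ^ L j) * Polynomial.X ^ L j *
    (1 - Polynomial.C ((R j : ℂ)⁻¹) * Polynomial.X) ^ h j

lemma P_eval (j : ℕ) (z : ℂ) :
    (P j).eval z = (z / R j) ^ L j * (1 - z / R j) ^ h j := by
  unfold P
  simp only [Polynomial.eval_mul, Polynomial.eval_C, Polynomial.eval_pow, Polynomial.eval_X,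
    Polynomial.eval_sub, Polynomial.eval_one]
  rw [← mul_pow]
  ring

lemma P_coeff_lt {j k : ℕ} (hk : k < L j) : (P j).coeff k = 0 := by
  unfold P
  rw [mul_assoc, Polynomial.coeff_C_mul, mul_comm (Polynomial.X ^ L j), Polynomial.coeff_mul_X_pow',
    if_neg (by omega), mul_zero]

lemma P_coeff_gt {j k : ℕ} (hk : L j + h j < k) : (P j).coeff k = 0 := by
  unfold P
  rw [mul_assoc, Polynomial.coeff_C_mul, mul_comm (Polynomial.X ^ L j), Polynomial.coeff_mul_X_pow',
    if_pos (by omega), Polynomial.coeff_eq_zero_of_natDegree_lt, mul_zero]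
  have h1 : (1 - Polynomial.C ((R j : ℂ)⁻¹) * Polynomial.X).natDegree ≤ 1 := by
    compute_degree
  have h2 := Polynomial.natDegree_pow_le_of_le (h j) h1
  omega

lemma P_coeff_L (j : ℕ) : (P j).coeff (L j) = ((R j : ℂ)⁻¹) ^ L j := by
  unfold P
  rw [mul_assoc, Polynomial.coeff_C_mul, mul_comm (Polynomial.X ^ L j), Polynomial.coeff_mul_X_pow',
    if_pos le_rfl, Nat.sub_self, Polynomial.coeff_zero_eq_eval_zero]
  simp

noncomputable def f (z : ℂ) : ℂ := ∑' j, (P j).eval z

noncomputable def U (j : ℕ) (ρ : ℝ) : ℝ := (ρ / R j) ^ L j * (1 + ρ / R j) ^ h j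

lemma U_nonneg (j : ℕ) {ρ : ℝ} (hρ : 0 ≤ ρ) : 0 ≤ U j ρ := by
  unfold U
  have := R_pos j
  positivity

lemma U_mono (j : ℕ) {ρ σ : ℝ} (hρ : 0 ≤ ρ) (hσ : ρ ≤ σ) : U j ρ ≤ U j σ := by
  unfold U
  have := R_pos j
  have h2 : 0 ≤ σ := hρ.trans hσ
  have h3 : 0 ≤ (σ / R j) ^ L j := by positivity
  gcongr

lemma norm_P_le (j : ℕ) (z : ℂ) : ‖(P j).eval z‖ ≤ U j ‖z‖ := by
  rw [P_eval]
  unfold U
  have h0 := R_pos j
  have h1 : ‖z / (R j : ℂ)‖ = ‖z‖ / R j := by
    rw [norm_div, Complex.norm_real, Real.norm_of_nonneg h0.le]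
  rw [norm_mul, norm_pow, norm_pow, h1]
  gcongr
  calc ‖1 - z / (R j : ℂ)‖ ≤ ‖(1 : ℂ)‖ + ‖z / (R j : ℂ)‖ := norm_sub_le _ _
    _ = 1 + ‖z‖ / R j := by rw [h1, norm_one]

lemma R_tendsto : Tendsto R atTop atTop := by
  unfold R
  exact Real.tendsto_log_atTop.comp
    (tendsto_atTop_add_const_right _ _ tendsto_natCast_atTop_atTop)

lemma U_summable {ρ : ℝ} (hρ : 0 ≤ ρ) : Summable fun j => U j ρ := by
  have hg : Summable fun j : ℕ => ((1 : ℝ) / 2) ^ j :=
    summable_geometric_of_lt_one (by norm_num) (by norm_num)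
  refine Summable.of_norm_bounded_eventually_nat hg ?_
  filter_upwards [R_tendsto.eventually_ge_atTop (4 * ρ)] with j hj
  rw [Real.norm_of_nonneg (U_nonneg j hρ)]
  unfold U
  have h0 := R_pos j
  have h1 : ρ / R j ≤ 1 / 4 := by
    rw [div_le_iff₀ h0]
    linarith
  have h2 : 0 ≤ ρ / R j := by positivity
  have h3 : h j ≤ L j := by have := h_le_L j; omega
  calc (ρ / R j) ^ L j * (1 + ρ / R j) ^ h j ≤ (1 / 4) ^ L j * 2 ^ h j := by
        gcongr
        linarith
    _ ≤ (1 / 4) ^ L j * 2 ^ L j := by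
        gcongr
        norm_num
    _ = (1 / 2) ^ L j := by
        rw [← mul_pow]
        norm_num
    _ ≤ (1 / 2) ^ j := pow_le_pow_of_le_one (by norm_num) (by norm_num) (le_L j)

lemma P_summable (z : ℂ) : Summable fun j => (P j).eval z :=
  Summable.of_norm_bounded (U_summable (norm_nonneg z)) fun j => norm_P_le j z

lemma f_lim : TendstoLocallyUniformlyOn (fun N z => ((∑ j ∈ range N, P j)).eval z) f atTop
    Set.univ := by
  rw [tendstoLocallyUniformlyOn_iff_forall_isCompact isOpen_univ]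
  intro K _ hK
  obtain ⟨ρ, hρ⟩ := hK.isBounded.exists_norm_le
  have h1 := tendstoUniformlyOn_tsum_nat (f := fun j z => (P j).eval z)
    (U_summable (abs_nonneg ρ)) (s := K) (fun j z hz =>
      (norm_P_le j z).trans (U_mono j (norm_nonneg z) ((hρ z hz).trans (le_abs_self ρ))))
  refine h1.congr (Eventually.of_forall fun N z _ => ?_)
  simp [Polynomial.eval_finsetSum]

lemma f_differentiable : Differentiable ℂ f := by
  rw [← differentiableOn_univ]
  exact f_lim.differentiableOn (Eventually.of_forall fun N =>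
      (Polynomial.differentiable _).differentiableOn) isOpen_univ

/-- The exponents. -/
def Lam : Set ℕ := ⋃ j, Set.Icc (L j) (L j + h j)

lemma f_support (k : ℕ) (hk : iteratedDeriv k f 0 ≠ 0) : k ∈ Lam := by
  by_contra hk'
  apply hk
  rw [iteratedDeriv_of_eventually P f f_lim k 0 0, mul_zero]
  intro N _
  rw [Polynomial.finsetSum_coeff]
  refine Finset.sum_eq_zero fun j _ => ?_
  have h1 : ¬ (L j ≤ k ∧ k ≤ L j + h j) := fun h2 => hk' (Set.mem_iUnion.2 ⟨j, h2⟩)
  rcases lt_or_ge k (L j) with h3 | h3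
  · exact P_coeff_lt h3
  · exact P_coeff_gt (by
      by_contra h4
      exact h1 ⟨h3, by omega⟩)

lemma f_coeff_L (j : ℕ) : iteratedDeriv (L j) f 0 ≠ 0 := by
  rw [iteratedDeriv_of_eventually P f f_lim (L j) (((R j : ℂ)⁻¹) ^ L j) (j + 1)]
  · have h0 : (R j : ℂ) ≠ 0 := by exact_mod_cast (R_pos j).ne'
    have h1 : ((L j).factorial : ℂ) ≠ 0 := by exact_mod_cast (Nat.factorial_pos _).ne'
    exact mul_ne_zero h1 (pow_ne_zero _ (inv_ne_zero h0))
  · intro N hN
    rw [Polynomial.finsetSum_coeff, Finset.sum_eq_single j]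
    · exact P_coeff_L j
    · intro i _ hij
      rcases lt_or_gt_of_ne hij with h1 | h1
      · exact P_coeff_gt (L_lt h1)
      · exact P_coeff_lt (L_strictMono h1)
    · intro h1
      exact absurd (Finset.mem_range.2 (by omega)) h1

lemma f_infinite : Set.Infinite {k : ℕ | iteratedDeriv k f 0 ≠ 0} := by
  refine Set.infinite_of_injective_forall_mem (f := L) L_strictMono.injective fun j => ?_
  exact f_coeff_L j

/-! Summability of the reciprocals of the exponents. -/

noncomputable def g (n : ℕ) : ℝ := 1 / ((n : ℝ) * ((Nat.log 2 n : ℝ) + 1) ^ 2)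

lemma g_summable : Summable g := by
  rw [← summable_condensed_iff_of_nonneg]
  · have h1 : (fun k : ℕ => (2 : ℝ) ^ k * g (2 ^ k)) = fun k : ℕ => 1 / ((k : ℝ) + 1) ^ 2 := by
      funext k
      unfold g
      rw [Nat.log_pow (by norm_num)]
      push_cast
      field_simp
    rw [h1]
    have h2 := (summable_nat_add_iff (f := fun n : ℕ => 1 / (n : ℝ) ^ 2) 1).2
      (Real.summable_one_div_nat_pow.2 (by norm_num))
    simpa using h2
  · intro n
    unfold g
    positivity
  · intro m n hm hmn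
    unfold g
    have h1 : (0 : ℝ) < m := by exact_mod_cast hm
    have h2 : (m : ℝ) ≤ n := by exact_mod_cast hmn
    have h3 : (Nat.log 2 m : ℝ) ≤ Nat.log 2 n := by exact_mod_cast Nat.log_mono_right hmn
    gcongr

lemma block_sum_le (j : ℕ) : ((h j : ℝ) + 1) / L j ≤ g (j + 3) := by
  have h1 : (1 : ℝ) ≤ h j := by exact_mod_cast h_pos j
  have h2 : (0 : ℝ) < K j := by exact_mod_cast K_pos j
  have h3 : ((Nat.log 2 (j + 3) : ℝ) + 1) = K j := by unfold K; push_cast; ring
  unfold g L
  rw [h3]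
  push_cast
  have h4 : (0 : ℝ) < (j : ℝ) + 3 := by positivity
  have h5 : (0 : ℝ) < h j := by linarith
  rw [div_le_div_iff₀ (by positivity) (by positivity)]
  nlinarith [mul_pos h4 (pow_pos h2 2)]

lemma Lam_summable : Summable (fun k : Lam => (1 : ℝ) / ((k : ℕ) : ℝ)) := by
  have h1 : Summable fun j => ((h j : ℝ) + 1) / L j := by
    refine Summable.of_nonneg_of_le (fun j => by positivity) block_sum_le ?_
    exact (summable_nat_add_iff 3).2 g_summable
  -- a choice of block for every exponent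
  have h2 : ∀ k : Lam, ∃ j, (k : ℕ) ∈ Set.Icc (L j) (L j + h j) := fun k =>
    Set.mem_iUnion.1 k.2
  choose b hb using h2
  refine summable_of_sum_le (c := ∑' j, ((h j : ℝ) + 1) / L j) (fun k => by positivity) ?_
  intro s
  classical
  calc ∑ k ∈ s, (1 : ℝ) / ((k : ℕ) : ℝ)
      = ∑ j ∈ s.image b, ∑ k ∈ s with b k = j, (1 : ℝ) / ((k : ℕ) : ℝ) :=
        (Finset.sum_fiberwise_of_maps_to (fun k hk => Finset.mem_image_of_mem b hk) _).symm
    _ ≤ ∑ j ∈ s.image b, ((h j : ℝ) + 1) / L j := by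
        refine Finset.sum_le_sum fun j _ => ?_
        have h3 : ∀ k ∈ s.filter (fun k => b k = j), (1 : ℝ) / ((k : ℕ) : ℝ) ≤ 1 / L j := by
          intro k hk
          have h4 := (Finset.mem_filter.1 hk).2
          have h5 := (hb k).1
          rw [h4] at h5
          have h6 : (0 : ℝ) < L j := by exact_mod_cast L_pos j
          have h7 : (L j : ℝ) ≤ ((k : ℕ) : ℝ) := by exact_mod_cast h5
          exact one_div_le_one_div_of_le h6 h7
        have h8 : (s.filter (fun k => b k = j)).card ≤ h j + 1 := by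
          have h9 : ((s.filter (fun k => b k = j)).map (Function.Embedding.subtype _)) ⊆
              Finset.Icc (L j) (L j + h j) := by
            intro n hn
            obtain ⟨k, hk, rfl⟩ := Finset.mem_map.1 hn
            have h4 := (Finset.mem_filter.1 hk).2
            have h5 := hb k
            rw [h4] at h5
            exact Finset.mem_Icc.2 h5
          have h10 := Finset.card_le_card h9
          rw [Finset.card_map, Nat.card_Icc] at h10
          omega
        calc ∑ k ∈ s with b k = j, (1 : ℝ) / ((k : ℕ) : ℝ)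
            ≤ (s.filter (fun k => b k = j)).card • ((1 : ℝ) / L j) :=
              Finset.sum_le_card_nsmul _ _ _ h3
          _ ≤ ((h j : ℝ) + 1) / L j := by
              rw [nsmul_eq_mul, mul_one_div]
              gcongr
              exact_mod_cast h8
    _ ≤ ∑' j, ((h j : ℝ) + 1) / L j := h1.sum_le_tsum _ fun j _ => by positivity

end Pool.Agent.MP_a091fe_an
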