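import Pool.Agent.MP_a091fe_an.Func

set_option autoImplicit false

open Filter Topology Finset

namespace Pool.Agent.MP_a091fe_an

attribute [local irreducible] h L K

lemma P_eval_neg (j : ℕ) (r : ℝ) : (P j).eval (-(r : ℂ)) = ((U j r : ℝ) : ℂ) := by
  rw [P_eval]
  unfold U
  push_cast
  rw [neg_div, (L_even j).neg_pow, sub_neg_eq_add]

lemma f_neg (r : ℝ) : f (-(r : ℂ)) = ((∑' j, U j r : ℝ) : ℂ) := by
  unfold f
  rw [Complex.ofReal_tsum]
  exact tsum_congr fun j => P_eval_neg j r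

lemma U_le_norm {r : ℝ} (hr : 0 ≤ r) (j : ℕ) : U j r ≤ ‖f (-(r : ℂ))‖ := by
  rw [f_neg, Complex.norm_real, Real.norm_of_nonneg (tsum_nonneg fun j => U_nonneg j hr)]
  exact (U_summable hr).le_tsum j fun i _ => U_nonneg i hr

lemma pow_le_U {r : ℝ} (hr : 0 ≤ r) (j : ℕ) : (r / R j) ^ L j ≤ U j r := by
  unfold U
  have h0 := R_pos j
  have h1 : 0 ≤ r / R j := by positivity
  exact le_mul_of_one_le_right (by positivity) (one_le_pow₀ (by linarith))

noncomputable def T (j : ℕ) (r : ℝ) : ℝ := (r / R j) ^ L j * |1 - r / R j| ^ h j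

lemma T_nonneg (j : ℕ) {r : ℝ} (hr : 0 ≤ r) : 0 ≤ T j r := by
  unfold T
  have := R_pos j
  positivity

lemma norm_P_eq (j : ℕ) {r : ℝ} (hr : 0 ≤ r) : ‖(P j).eval (r : ℂ)‖ = T j r := by
  rw [P_eval]
  unfold T
  have h0 := R_pos j
  have h1 : (r : ℂ) / (R j : ℂ) = ((r / R j : ℝ) : ℂ) := by push_cast; rfl
  have h2 : (1 : ℂ) - ((r / R j : ℝ) : ℂ) = ((1 - r / R j : ℝ) : ℂ) := by push_cast; rfl
  rw [h1, h2, norm_mul, norm_pow, norm_pow, Complex.norm_real, Complex.norm_real,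
    Real.norm_of_nonneg (show 0 ≤ r / R j by positivity), Real.norm_eq_abs]

lemma T_summable {r : ℝ} (hr : 0 ≤ r) : Summable fun j => T j r := by
  refine Summable.of_nonneg_of_le (fun j => T_nonneg j hr) (fun j => ?_) (U_summable hr)
  rw [← norm_P_eq j hr]
  refine (norm_P_le j _).trans (le_of_eq ?_)
  rw [Complex.norm_real, Real.norm_of_nonneg hr]

lemma norm_f_le {r : ℝ} (hr : 0 ≤ r) : ‖f (r : ℂ)‖ ≤ ∑' j, T j r := by
  have h1 : Summable fun j => ‖(P j).eval (r : ℂ)‖ := by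
    simp_rw [norm_P_eq _ hr]
    exact T_summable hr
  refine (norm_tsum_le_tsum_norm h1).trans (le_of_eq ?_)
  exact tsum_congr fun j => norm_P_eq j hr

/-- Damping on the two dominant terms. -/
lemma damp {j : ℕ} (hj : 5 ≤ j) {r : ℝ} (h1 : R j ≤ r) (h2 : r < R (j + 2)) :
    (r / R j) ^ L j * |1 - r / R j| ^ (36 * h j) ≤ 1 := by
  have h0 := R_pos j
  have hR2 := two_le_R hj
  have hn : (0 : ℝ) < (j : ℝ) + 3 := by positivity
  set y : ℝ := r / R j - 1 with hy
  have hy0 : 0 ≤ y := by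
    rw [hy, sub_nonneg, le_div_iff₀ h0]
    linarith
  have hyle : y ≤ 2 / (((j : ℝ) + 3) * R j) := by
    have h3 := R_two_sub j
    rw [hy, div_sub_one h0.ne', div_le_div_iff₀ h0 (by positivity)]
    have h4 : r - R j ≤ 2 / ((j : ℝ) + 3) := by linarith
    have h5 : (r - R j) * ((j : ℝ) + 3) ≤ 2 := by
      rwa [le_div_iff₀ hn] at h4
    nlinarith
  have hyle' : y ≤ 1 / ((j : ℝ) + 3) := by
    refine hyle.trans ?_
    rw [div_le_div_iff₀ (by positivity) hn]
    nlinarith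
  have e1 : r / R j = 1 + y := by rw [hy]; ring
  have e2 : |1 - r / R j| = y := by
    rw [e1, abs_of_nonpos (by linarith)]
    ring
  have e3 : L j = (2 * (j + 3) * K j ^ 2) * h j := by unfold L; rfl
  have hK := K_le j
  have hK0 : (0 : ℝ) ≤ K j := Nat.cast_nonneg _
  -- the base inequality
  have hbase : (1 + y) ^ (2 * (j + 3) * K j ^ 2) * y ^ 36 ≤ 1 := by
    have h6 : (1 + y) ^ (2 * (j + 3) * K j ^ 2) ≤ Real.exp (36 * R j) := by
      calc (1 + y) ^ (2 * (j + 3) * K j ^ 2) ≤ (Real.exp y) ^ (2 * (j + 3) * K j ^ 2) := by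
            refine pow_le_pow_left₀ (by linarith) ?_ _
            rw [add_comm]
            exact Real.add_one_le_exp y
        _ = Real.exp ((2 * (j + 3) * K j ^ 2 : ℕ) * y) := by rw [← Real.exp_nat_mul]
        _ ≤ Real.exp (36 * R j) := by
            rw [Real.exp_le_exp]
            push_cast
            have h7 : 2 * ((j : ℝ) + 3) * (K j : ℝ) ^ 2 * y
                ≤ 2 * ((j : ℝ) + 3) * (K j : ℝ) ^ 2 * (2 / (((j : ℝ) + 3) * R j)) :=
              mul_le_mul_of_nonneg_left hyle (by positivity)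
            refine h7.trans ?_
            have h8 : 2 * ((j : ℝ) + 3) * (K j : ℝ) ^ 2 * (2 / (((j : ℝ) + 3) * R j))
                = 4 * (K j : ℝ) ^ 2 / R j := by
              field_simp
              ring
            rw [h8, div_le_iff₀ h0]
            nlinarith
    have h9 : Real.exp (36 * R j) = ((j : ℝ) + 3) ^ 36 := by
      unfold R
      rw [show (36 : ℝ) = ((36 : ℕ) : ℝ) by norm_num, Real.exp_nat_mul, Real.exp_log hn]
    have h10 : y ^ 36 ≤ (1 / ((j : ℝ) + 3)) ^ 36 := pow_le_pow_left₀ hy0 hyle' 36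
    calc (1 + y) ^ (2 * (j + 3) * K j ^ 2) * y ^ 36
        ≤ ((j : ℝ) + 3) ^ 36 * (1 / ((j : ℝ) + 3)) ^ 36 := by
          rw [← h9]
          exact mul_le_mul h6 h10 (by positivity) (by positivity)
      _ = 1 := by
          rw [← mul_pow, mul_one_div_cancel hn.ne', one_pow]
  rw [e2, e1, e3, pow_mul (1 + y) _ (h j), pow_mul y 36 (h j), ← mul_pow]
  exact pow_le_one₀ (by positivity) hbase

lemma T_dom {j : ℕ} (hj : 5 ≤ j) {r M : ℝ} (h1 : R j ≤ r) (h2 : r < R (j + 2))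
    (hM : U j r ≤ M) : T j r ≤ Real.exp (35 / 36 * Real.log M) := by
  have h0 := R_pos j
  have hr : 0 ≤ r := h0.le.trans h1
  have h3 : 1 ≤ (r / R j) ^ L j := one_le_pow₀ (by rw [le_div_iff₀ h0]; linarith)
  have h4 : (r / R j) ^ L j ≤ M := (pow_le_U hr j).trans hM
  have hMpos : 0 < M := by linarith
  have h5 := damp hj h1 h2
  have h6 : T j r ^ 36 ≤ M ^ 35 := by
    unfold T
    calc ((r / R j) ^ L j * |1 - r / R j| ^ h j) ^ 36
        = ((r / R j) ^ L j) ^ 35 * ((r / R j) ^ L j * |1 - r / R j| ^ (36 * h j)) := by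
          rw [mul_comm 36 (h j), pow_mul (|1 - r / R j|) (h j) 36, mul_pow]
          ring
      _ ≤ M ^ 35 * 1 := by
          refine mul_le_mul (pow_le_pow_left₀ (by linarith) h4 35) h5 ?_ (by positivity)
          positivity
      _ = M ^ 35 := mul_one _
  have h7 : (Real.exp (35 / 36 * Real.log M)) ^ 36 = M ^ 35 := by
    rw [← Real.exp_nat_mul]
    have : ((36 : ℕ) : ℝ) * (35 / 36 * Real.log M) = ((35 : ℕ) : ℝ) * Real.log M := by
      push_cast
      ring
    rw [this, Real.exp_nat_mul, Real.exp_log hMpos]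
  rw [← h7] at h6
  exact le_of_pow_le_pow_left₀ (by norm_num) (Real.exp_pos _).le h6

lemma T_le_one {j : ℕ} {r : ℝ} (hr : 0 ≤ r) (h1 : r ≤ R j) :
    T j r ≤ (r / R j) ^ L j := by
  have h0 := R_pos j
  unfold T
  have h2 : 0 ≤ r / R j := by positivity
  have h3 : r / R j ≤ 1 := (div_le_one h0).2 h1
  have h4 : |1 - r / R j| ≤ 1 := by
    rw [abs_of_nonneg (by linarith)]
    linarith
  exact mul_le_of_le_one_right (by positivity) (pow_le_one₀ (abs_nonneg _) h4)

lemma h_ge (j : ℕ) : (j + 3) ^ 2 ≤ h j ∧ 3 ≤ h j := by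
  have h1 : 4 * (j + 3) ^ 2 < 2 ^ (4 * (j + 3) ^ 2) := Nat.lt_two_pow_self
  have h2 : 9 ≤ (j + 3) ^ 2 := by
    calc 9 = 3 ^ 2 := by norm_num
      _ ≤ (j + 3) ^ 2 := Nat.pow_le_pow_left (by omega) 2
  unfold h
  constructor <;> omega

lemma L_ge (j : ℕ) : (j + 3) ^ 3 ≤ L j := by
  have h1 := (h_ge j).1
  have h2 : 1 ≤ K j ^ 2 := Nat.one_le_pow _ _ (K_pos j)
  unfold L
  calc (j + 3) ^ 3 = (j + 3) * 1 * (j + 3) ^ 2 := by ring
    _ ≤ (2 * (j + 3)) * K j ^ 2 * h j :=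
      Nat.mul_le_mul (Nat.mul_le_mul (by omega) h2) h1

lemma T_tail {j : ℕ} {r : ℝ} (hr : 0 ≤ r) (h1 : r ≤ R j) : T (j + 1) r ≤ (1 / 2) ^ (j + 1) := by
  have h0 := R_pos (j + 1)
  have h2 := R_succ_sub j
  have h3 := R_le (j + 1)
  have hj : (0 : ℝ) ≤ j := Nat.cast_nonneg j
  push_cast at h3
  refine (T_le_one hr (h1.trans (R_mono (Nat.lt_succ_self j)).le)).trans ?_
  have h4 : r / R (j + 1) ≤ 1 - 1 / (((j : ℝ) + 4) * ((j : ℝ) + 3)) := by
    rw [div_le_iff₀ h0]
    have h5 : 1 / (((j : ℝ) + 4) * ((j : ℝ) + 3)) * R (j + 1) ≤ 1 / ((j : ℝ) + 4) := by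
      rw [div_mul_eq_mul_div, one_mul, div_le_div_iff₀ (by positivity) (by positivity)]
      nlinarith
    nlinarith
  have h6 : 1 - 1 / (((j : ℝ) + 4) * ((j : ℝ) + 3))
      ≤ Real.exp (-(1 / (((j : ℝ) + 4) * ((j : ℝ) + 3)))) := by
    have := Real.add_one_le_exp (-(1 / (((j : ℝ) + 4) * ((j : ℝ) + 3))))
    linarith
  have h7 : ((j : ℝ) + 4) ^ 3 ≤ L (j + 1) := by
    have := L_ge (j + 1)
    have h8 : (((j + 1 + 3) ^ 3 : ℕ) : ℝ) ≤ (L (j + 1) : ℝ) := by exact_mod_cast this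
    push_cast at h8
    refine le_trans (le_of_eq ?_) h8
    ring
  calc (r / R (j + 1)) ^ L (j + 1)
      ≤ (Real.exp (-(1 / (((j : ℝ) + 4) * ((j : ℝ) + 3))))) ^ L (j + 1) :=
        pow_le_pow_left₀ (by positivity) (h4.trans h6) _
    _ = Real.exp ((L (j + 1) : ℝ) * (-(1 / (((j : ℝ) + 4) * ((j : ℝ) + 3))))) := by
        rw [Real.exp_nat_mul]
    _ ≤ Real.exp (((j + 1 : ℕ) : ℝ) * (-1)) := by
        rw [Real.exp_le_exp, mul_neg, mul_neg, neg_le_neg_iff, mul_one, mul_one_div,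
          le_div_iff₀ (by positivity)]
        push_cast
        nlinarith [mul_nonneg hj hj]
    _ = (Real.exp (-1)) ^ (j + 1) := by rw [Real.exp_nat_mul]
    _ ≤ (1 / 2) ^ (j + 1) := by
        refine pow_le_pow_left₀ (Real.exp_pos _).le ?_ _
        rw [Real.exp_neg, one_div]
        refine inv_anti₀ (by norm_num) ?_
        have := Real.add_one_le_exp (1 : ℝ)
        linarith

/-- Lower bound for the logarithm of the maximum modulus. -/
lemma log_M_ge {i : ℕ} {r M : ℝ} (h1 : R (i + 2) ≤ r) (hM : U (i + 1) r ≤ M) :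
    4 * ((i : ℝ) + 5) * L i ≤ Real.log M := by
  have h0 := R_pos (i + 1)
  have hr : 0 ≤ r := (R_pos (i + 2)).le.trans h1
  have hi : (0 : ℝ) ≤ i := Nat.cast_nonneg i
  have h2 := R_succ_sub (i + 1)
  have h3 := R_le (i + 1)
  push_cast at h2 h3
  have h4 : 1 + 1 / ((i : ℝ) + 5) ^ 2 ≤ r / R (i + 1) := by
    rw [le_div_iff₀ h0]
    have h5 : 1 / ((i : ℝ) + 5) ^ 2 * R (i + 1) ≤ 1 / ((i : ℝ) + 1 + 4) := by
      rw [div_mul_eq_mul_div, one_mul, div_le_div_iff₀ (by positivity) (by positivity)]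
      nlinarith
    have h6 : R (i + 1 + 1) = R (i + 2) := rfl
    rw [h6] at h2
    nlinarith
  have h7 : 1 / (2 * ((i : ℝ) + 5) ^ 2) ≤ Real.log (r / R (i + 1)) := by
    have h8 : 1 / ((i : ℝ) + 5) ^ 2 ≤ 1 := by
      rw [div_le_one (by positivity)]
      nlinarith
    have h9 : 0 < 1 / ((i : ℝ) + 5) ^ 2 := by positivity
    calc 1 / (2 * ((i : ℝ) + 5) ^ 2) = (1 / ((i : ℝ) + 5) ^ 2) / 2 := by field_simp
      _ ≤ 1 - (1 + 1 / ((i : ℝ) + 5) ^ 2)⁻¹ := by
          set x : ℝ := 1 / ((i : ℝ) + 5) ^ 2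
          have e : 1 - (1 + x)⁻¹ = x / (1 + x) := by field_simp; ring
          rw [e]
          exact div_le_div_of_nonneg_left h9.le (by linarith) (by linarith)
      _ ≤ Real.log (1 + 1 / ((i : ℝ) + 5) ^ 2) :=
          Real.one_sub_inv_le_log_of_pos (by positivity)
      _ ≤ Real.log (r / R (i + 1)) := Real.log_le_log (by positivity) h4
  have h10 : (L (i + 1) : ℝ) * Real.log (r / R (i + 1)) ≤ Real.log M := by
    rw [← Real.log_pow]
    have hpos : 0 < r / R (i + 1) := lt_of_lt_of_le (by positivity) h4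
    exact Real.log_le_log (by positivity) ((pow_le_U hr (i + 1)).trans hM)
  have h11 : (8 * ((i : ℝ) + 5) ^ 3 * L i) ≤ L (i + 1) := by exact_mod_cast L_growth i
  calc 4 * ((i : ℝ) + 5) * L i
      = (8 * ((i : ℝ) + 5) ^ 3 * L i) * (1 / (2 * ((i : ℝ) + 5) ^ 2)) := by
        field_simp
        ring
    _ ≤ (L (i + 1) : ℝ) * Real.log (r / R (i + 1)) :=
        mul_le_mul h11 h7 (by positivity) (by positivity)
    _ ≤ Real.log M := h10

lemma T_small {i j : ℕ} (hij : j ≤ i) {r A : ℝ} (hr : 0 ≤ r) (h1 : r < R (i + 3))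
    (hA : 4 * ((i : ℝ) + 5) * L i ≤ A) : T j r ≤ Real.exp (35 / 36 * A) := by
  have h0 := R_pos j
  have h01 := one_le_R j
  have hi : (0 : ℝ) ≤ i := Nat.cast_nonneg i
  have h2 : r / R j ≤ r := div_le_self hr h01
  have h2' : 0 ≤ r / R j := by positivity
  have h3 : |1 - r / R j| ≤ 1 + r := by
    rw [abs_le]
    constructor <;> linarith
  have h4 : L j ≤ L i := L_strictMono.monotone hij
  have h5 : h j ≤ L j := by have := h_le_L j; omega
  have h6 := R_le (i + 3)
  push_cast at h6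
  have hLi : (0 : ℝ) < L i := by exact_mod_cast L_pos i
  calc T j r ≤ (1 + r) ^ L j * (1 + r) ^ h j := by
        unfold T
        refine mul_le_mul (pow_le_pow_left₀ h2' (by linarith) _)
          (pow_le_pow_left₀ (abs_nonneg _) h3 _) (by positivity) (by positivity)
    _ = (1 + r) ^ (L j + h j) := by rw [pow_add]
    _ ≤ (1 + r) ^ (2 * L i) := pow_le_pow_right₀ (by linarith) (by omega)
    _ ≤ (Real.exp r) ^ (2 * L i) := by
        refine pow_le_pow_left₀ (by linarith) ?_ _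
        rw [add_comm]
        exact Real.add_one_le_exp r
    _ = Real.exp ((2 * L i : ℕ) * r) := by rw [Real.exp_nat_mul]
    _ ≤ Real.exp (35 / 36 * A) := by
        rw [Real.exp_le_exp]
        push_cast
        have h7 : r ≤ (i : ℝ) + 5 := by linarith
        have h8 : 2 * (L i : ℝ) * r ≤ 2 * (L i : ℝ) * ((i : ℝ) + 5) :=
          mul_le_mul_of_nonneg_left h7 (by positivity)
        have h9 : 0 ≤ ((i : ℝ) + 5) * L i := by positivity
        nlinarith

/-- The main estimate. -/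
lemma main_est {i : ℕ} (hi : 4 ≤ i) {r M : ℝ} (h1 : R (i + 2) ≤ r) (h2 : r < R (i + 3))
    (hM : ∀ j, U j r ≤ M) :
    ‖f (r : ℂ)‖ ≤ Real.exp (71 / 72 * Real.log M) ∧ 0 < Real.log M := by
  have hr : 0 ≤ r := (R_pos (i + 2)).le.trans h1
  set A := Real.log M with hAdef
  have hA := log_M_ge h1 (hM (i + 1))
  rw [← hAdef] at hA
  have hi0 : (0 : ℝ) ≤ i := Nat.cast_nonneg i
  have hL18 : (18 : ℝ) ≤ L i := by
    have h3 := h_le_L i
    have h4 := (h_ge i).2
    have : 18 ≤ L i := by omega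
    exact_mod_cast this
  have hApos : 72 * ((i : ℝ) + 5) ≤ A := by nlinarith
  have hfin : ∀ j ∈ range (i + 4), T j r ≤ Real.exp (35 / 36 * A) := by
    intro j hj
    have hj' := Finset.mem_range.1 hj
    rcases le_or_gt j i with h3 | h3
    · exact T_small h3 hr h2 hA
    · rcases Nat.lt_or_ge j (i + 3) with h4 | h4
      · -- j = i+1 or i+2
        refine T_dom (by omega) ?_ ?_ (hM j)
        · exact (R_mono.monotone (show j ≤ i + 2 by omega)).trans h1
        · exact h2.trans_le (R_mono.monotone (show i + 3 ≤ j + 2 by omega))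
      · have h5 : j = i + 3 := by omega
        rw [h5]
        refine (T_le_one hr h2.le).trans ?_
        have h6 : (r / R (i + 3)) ^ L (i + 3) ≤ 1 :=
          pow_le_one₀ (by have := R_pos (i + 3); positivity) ((div_le_one (R_pos _)).2 h2.le)
        refine h6.trans (Real.one_le_exp ?_)
        nlinarith
  have htail : ∑' n, T (n + (i + 4)) r ≤ 1 := by
    have h3 : ∀ n, T (n + (i + 4)) r ≤ (1 / 2) ^ (n + (i + 4)) := by
      intro n
      have h4 : n + (i + 4) = (n + i + 3) + 1 := by ring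
      rw [h4]
      exact T_tail hr (h2.le.trans (R_mono.monotone (by omega)))
    have hg : Summable fun n : ℕ => ((1 : ℝ) / 2) ^ (n + 1) :=
      (summable_nat_add_iff 1).2 (summable_geometric_of_lt_one (by norm_num) (by norm_num))
    have h5 : ∀ n, T (n + (i + 4)) r ≤ (1 / 2) ^ (n + 1) := fun n =>
      (h3 n).trans (pow_le_pow_of_le_one (by norm_num) (by norm_num) (by omega))
    have h6 : ∑' n : ℕ, ((1 : ℝ) / 2) ^ (n + 1) = 1 := by
      simp_rw [pow_succ]
      rw [tsum_mul_right, tsum_geometric_two]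
      norm_num
    rw [← h6]
    exact ((summable_nat_add_iff (i + 4)).2 (T_summable hr)).tsum_le_tsum h5 hg
  refine ⟨?_, by linarith⟩
  have h7 : 1 ≤ Real.exp (35 / 36 * A) := Real.one_le_exp (by nlinarith)
  have h8 : ∑ j ∈ range (i + 4), T j r ≤ ((i : ℝ) + 4) * Real.exp (35 / 36 * A) := by
    have := Finset.sum_le_card_nsmul _ _ _ hfin
    rw [Finset.card_range, nsmul_eq_mul] at this
    push_cast at this
    exact this
  calc ‖f (r : ℂ)‖ ≤ ∑' j, T j r := norm_f_le hr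
    _ = ∑ j ∈ range (i + 4), T j r + ∑' n, T (n + (i + 4)) r :=
        ((T_summable hr).sum_add_tsum_nat_add (i + 4)).symm
    _ ≤ ((i : ℝ) + 4) * Real.exp (35 / 36 * A) + Real.exp (35 / 36 * A) := by
        linarith
    _ = ((i : ℝ) + 5) * Real.exp (35 / 36 * A) := by ring
    _ ≤ Real.exp (1 / 72 * A) * Real.exp (35 / 36 * A) := by
        refine mul_le_mul_of_nonneg_right ?_ (Real.exp_pos _).le
        have h9 := Real.add_one_le_exp ((i : ℝ) + 5)
        have h10 : Real.exp ((i : ℝ) + 5) ≤ Real.exp (1 / 72 * A) := by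
          rw [Real.exp_le_exp]
          linarith
        linarith
    _ = Real.exp (71 / 72 * A) := by
        rw [← Real.exp_add]
        congr 1
        ring

lemma exists_index {r : ℝ} (hr : R 6 ≤ r) : ∃ i, 4 ≤ i ∧ R (i + 2) ≤ r ∧ r < R (i + 3) := by
  classical
  have h1 : ∃ n, r < R n := by
    obtain ⟨n, hn⟩ := (R_tendsto.eventually_gt_atTop r).exists
    exact ⟨n, hn⟩
  have h2 := Nat.find_spec h1
  have h3 : 6 < Nat.find h1 := by
    rw [Nat.lt_find_iff]
    intro m hm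
    rw [not_lt]
    exact (R_mono.monotone hm).trans hr
  refine ⟨Nat.find h1 - 3, by omega, ?_, ?_⟩
  · have h4 : Nat.find h1 - 3 + 2 < Nat.find h1 := by omega
    exact not_lt.1 (Nat.find_min h1 h4)
  · have h4 : Nat.find h1 - 3 + 3 = Nat.find h1 := by omega
    rw [h4]
    exact h2

theorem not_limsup_one :
    ¬ (∀ (f : ℂ → ℂ) (Λ : Set ℕ),
      Differentiable ℂ f →
      (∀ k : ℕ, iteratedDeriv k f 0 ≠ 0 → k ∈ Λ) →
      Summable (fun k : Λ => (1 : ℝ) / ((k : ℕ) : ℝ)) →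
      Set.Infinite {k : ℕ | iteratedDeriv k f 0 ≠ 0} →
      ∀ ε : ℝ, 0 < ε → ∀ R : ℝ, ∃ r : ℝ, R < r ∧
        (1 - ε) * Real.log (sSup ((fun z => ‖f z‖) '' Metric.sphere (0 : ℂ) r))
          ≤ Real.log (sInf ((fun z => ‖f z‖) '' Metric.sphere (0 : ℂ) r))) := by
  intro H
  obtain ⟨r, hr, hle⟩ := H f Lam f_differentiable f_support Lam_summable f_infinite
    (1 / 100) (by norm_num) (R 6)
  obtain ⟨i, hi, h1, h2⟩ := exists_index hr.le
  have hr0 : 0 ≤ r := (R_pos 6).le.trans hr.le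
  set M := sSup ((fun z => ‖f z‖) '' Metric.sphere (0 : ℂ) r) with hMdef
  set m := sInf ((fun z => ‖f z‖) '' Metric.sphere (0 : ℂ) r) with hmdef
  have hcont : Continuous fun z => ‖f z‖ := f_differentiable.continuous.norm
  have hbdd : BddAbove ((fun z => ‖f z‖) '' Metric.sphere (0 : ℂ) r) :=
    (isCompact_sphere (0 : ℂ) r).bddAbove_image hcont.continuousOn
  have hbdd' : BddBelow ((fun z => ‖f z‖) '' Metric.sphere (0 : ℂ) r) :=
    ⟨0, by rintro _ ⟨z, _, rfl⟩; exact norm_nonneg _⟩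
  have hmem : (r : ℂ) ∈ Metric.sphere (0 : ℂ) r := by
    simp [abs_of_nonneg hr0]
  have hmem' : -(r : ℂ) ∈ Metric.sphere (0 : ℂ) r := by
    simp [abs_of_nonneg hr0]
  have hM : ∀ j, U j r ≤ M := fun j =>
    (U_le_norm hr0 j).trans (le_csSup hbdd ⟨_, hmem', rfl⟩)
  have hm : m ≤ ‖f (r : ℂ)‖ := csInf_le hbdd' ⟨_, hmem, rfl⟩
  have hm0 : 0 ≤ m := Real.sInf_nonneg (by rintro _ ⟨z, _, rfl⟩; exact norm_nonneg _)
  obtain ⟨h3, h4⟩ := main_est hi h1 h2 hM
  have h5 : Real.log m ≤ 71 / 72 * Real.log M := by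
    rcases hm0.eq_or_lt with h6 | h6
    · rw [← h6, Real.log_zero]
      positivity
    · calc Real.log m ≤ Real.log (Real.exp (71 / 72 * Real.log M)) :=
            Real.log_le_log h6 (hm.trans h3)
        _ = 71 / 72 * Real.log M := Real.log_exp _
  nlinarith

end Pool.Agent.MP_a091fe_an
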